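import Mathlib

set_option autoImplicit false

open Finset

namespace Pool.Agent.Results.MP_cd30d4_co.TaylorNonneg

/-- The truncated alternating binomial sum `∑_{j ≤ m} C(r+m, j) (-t)^j`, which equals
`(r+m)! * c_{r, r+m}` when `t = 1/(r+1)`. -/
private noncomputable def A (r : ℕ) (t : ℝ) (m : ℕ) : ℝ :=
  ∑ j ∈ range (m + 1), ((r + m).choose j : ℝ) * (-t) ^ j

private lemma A_zero (r : ℕ) (t : ℝ) : A r t 0 = 1 := by
  simp [A]

/-- Pascal recursion. -/
private lemma A_succ (r : ℕ) (t : ℝ) (m : ℕ) :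
    A r t (m + 1) = (1 - t) * A r t m + ((r + m).choose (m + 1) : ℝ) * (-t) ^ (m + 1) := by
  have h1 : A r t (m + 1) =
      ∑ j ∈ range (m + 1), (((r + m).choose j : ℝ) + ((r + m).choose (j + 1) : ℝ)) *
        (-t) ^ (j + 1) + 1 := by
    unfold A
    rw [Finset.sum_range_succ']
    simp only [← add_assoc, Nat.choose_zero_right, Nat.cast_one, pow_zero, mul_one]
    congr 1
    apply Finset.sum_congr rfl
    intro j _
    rw [Nat.choose_succ_succ]
    push_cast
    ring
  have h2 : A r t m + ((r + m).choose (m + 1) : ℝ) * (-t) ^ (m + 1) =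
      ∑ j ∈ range (m + 1), ((r + m).choose (j + 1) : ℝ) * (-t) ^ (j + 1) + 1 := by
    unfold A
    rw [← Finset.sum_range_succ (fun j => ((r + m).choose j : ℝ) * (-t) ^ j) (m + 1)]
    rw [Finset.sum_range_succ']
    simp
  have h3 : (-t) * A r t m =
      ∑ j ∈ range (m + 1), ((r + m).choose j : ℝ) * (-t) ^ (j + 1) := by
    unfold A
    rw [Finset.mul_sum]
    apply Finset.sum_congr rfl
    intro j _
    ring
  have h4 : ∑ j ∈ range (m + 1), (((r + m).choose j : ℝ) + ((r + m).choose (j + 1) : ℝ)) *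
        (-t) ^ (j + 1) =
      ∑ j ∈ range (m + 1), ((r + m).choose j : ℝ) * (-t) ^ (j + 1) +
      ∑ j ∈ range (m + 1), ((r + m).choose (j + 1) : ℝ) * (-t) ^ (j + 1) := by
    rw [← Finset.sum_add_distrib]
    apply Finset.sum_congr rfl
    intro j _
    ring
  rw [h1, h4, ← h3]
  linarith [h2]

/-- `C(r + m, m + 1) ≤ r * C(r + m - 1, m)` in the form used below. -/
private lemma choose_bound (r m : ℕ) (hr : 1 ≤ r) :
    (r + m).choose (m + 1) ≤ r * (r + m - 1).choose m := by
  obtain ⟨s, rfl⟩ : ∃ s, r = s + 1 := ⟨r - 1, by omega⟩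
  have h : (s + 1 + m) * (s + m).choose m = (s + 1 + m).choose (m + 1) * (m + 1) := by
    have := Nat.add_one_mul_choose_eq (s + m) m
    have e : s + m + 1 = s + 1 + m := by ring
    rw [e] at this
    exact this
  have e2 : s + 1 + m - 1 = s + m := by omega
  rw [e2]
  have h3 : (s + 1 + m).choose (m + 1) * (m + 1) ≤ ((s + 1) * (s + m).choose m) * (m + 1) := by
    rw [← h]
    have : (s + 1 + m) ≤ (s + 1) * (m + 1) := by nlinarith
    calc (s + 1 + m) * (s + m).choose m ≤ ((s + 1) * (m + 1)) * (s + m).choose m :=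
          Nat.mul_le_mul_right _ this
      _ = ((s + 1) * (s + m).choose m) * (m + 1) := by ring
  exact Nat.le_of_mul_le_mul_right h3 (Nat.succ_pos m)

private lemma key (r : ℕ) (hr : 1 ≤ r) (t : ℝ) (ht : t = 1 / ((r : ℝ) + 1)) (i : ℕ) :
    ((r + 2 * i - 1).choose (2 * i) : ℝ) * t ^ (2 * i) ≤ A r t (2 * i) ∧
      0 ≤ A r t (2 * i + 1) := by
  have hr0 : (0 : ℝ) < (r : ℝ) + 1 := by positivity
  have ht0 : 0 < t := by rw [ht]; positivity
  have h1t : 1 - t = r * t := by
    rw [ht]; field_simp; ring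
  have step : ∀ i : ℕ, ((r + 2 * i - 1).choose (2 * i) : ℝ) * t ^ (2 * i) ≤ A r t (2 * i) →
      0 ≤ A r t (2 * i + 1) := by
    intro i hi
    rw [A_succ]
    have hodd : (-t) ^ (2 * i + 1) = - t ^ (2 * i + 1) := by
      rw [Odd.neg_pow ⟨i, rfl⟩]
    rw [hodd, h1t]
    have hc : ((r + 2 * i).choose (2 * i + 1) : ℝ) ≤
        (r : ℝ) * ((r + 2 * i - 1).choose (2 * i) : ℝ) := by
      exact_mod_cast choose_bound r (2 * i) hr
    have e1 : (r : ℝ) * t * (((r + 2 * i - 1).choose (2 * i) : ℝ) * t ^ (2 * i)) ≤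
        (r : ℝ) * t * A r t (2 * i) := mul_le_mul_of_nonneg_left hi (by positivity)
    have e2 : ((r + 2 * i).choose (2 * i + 1) : ℝ) * t ^ (2 * i + 1) ≤
        ((r : ℝ) * ((r + 2 * i - 1).choose (2 * i) : ℝ)) * t ^ (2 * i + 1) :=
      mul_le_mul_of_nonneg_right hc (by positivity)
    have e3 : (r : ℝ) * t * (((r + 2 * i - 1).choose (2 * i) : ℝ) * t ^ (2 * i)) =
        ((r : ℝ) * ((r + 2 * i - 1).choose (2 * i) : ℝ)) * t ^ (2 * i + 1) := by ring
    linarith
  induction i with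
  | zero =>
    refine ⟨by simp [A_zero], ?_⟩
    apply step 0
    simp [A_zero]
  | succ i ih =>
    have hfst : ((r + 2 * (i + 1) - 1).choose (2 * (i + 1)) : ℝ) * t ^ (2 * (i + 1)) ≤
        A r t (2 * (i + 1)) := by
      have e : 2 * (i + 1) = (2 * i + 1) + 1 := by ring
      rw [e, A_succ, h1t]
      have heven : (-t) ^ (2 * i + 1 + 1) = t ^ (2 * i + 1 + 1) := by
        rw [Even.neg_pow ⟨i + 1, by ring⟩]
      rw [heven]
      have e4 : r + (2 * i + 1 + 1) - 1 = r + (2 * i + 1) := by omega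
      rw [e4]
      have : 0 ≤ (r : ℝ) * t * A r t (2 * i + 1) := mul_nonneg (by positivity) ih.2
      linarith
    exact ⟨hfst, step (i + 1) hfst⟩

private lemma A_nonneg (r : ℕ) (hr : 1 ≤ r) (t : ℝ) (ht : t = 1 / ((r : ℝ) + 1)) (m : ℕ) :
    0 ≤ A r t m := by
  have ht0 : 0 < t := by rw [ht]; positivity
  rcases Nat.even_or_odd' m with ⟨i, hi | hi⟩
  · rw [hi]
    exact le_trans (by positivity) (key r hr t ht i).1
  · rw [hi]
    exact (key r hr t ht i).2

private lemma deriv_B (r j : ℕ) :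
    iteratedDeriv j (fun x : ℝ => Real.exp x - ∑ k ∈ range r, x ^ k / (k.factorial : ℝ)) 0 =
      if r ≤ j then 1 else 0 := by
  have hexp : iteratedDeriv j (fun x : ℝ => Real.exp x) 0 = 1 := by
    have := congrFun (iteratedDeriv_exp_const_mul j 1) 0
    simpa using this
  have hpow : ∀ k : ℕ, iteratedDeriv j (fun x : ℝ => x ^ k / (k.factorial : ℝ)) 0 =
      if j = k then 1 else 0 := by
    intro k
    rw [iteratedDeriv_div_const (fun x : ℝ => x ^ k) (k.factorial : ℝ), iteratedDeriv_fun_pow_zero]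
    split_ifs with h
    · have : (k.factorial : ℝ) ≠ 0 := by positivity
      field_simp
    · simp
  have hc : ∀ k ∈ range r, ContDiffAt ℝ j (fun x : ℝ => x ^ k / (k.factorial : ℝ)) 0 := by
    intro k _
    fun_prop
  rw [iteratedDeriv_fun_sub (by fun_prop) (by fun_prop), hexp, iteratedDeriv_fun_sum hc]
  simp only [hpow]
  rw [Finset.sum_ite_eq]
  by_cases h : r ≤ j
  · simp [h]
  · simp [h, not_le.mp h]

private lemma deriv_G (r n : ℕ) :
    iteratedDeriv n (fun x : ℝ => Real.exp (-x / ((r : ℝ) + 1)) *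
      (Real.exp x - ∑ k ∈ range r, x ^ k / (k.factorial : ℝ))) 0 =
    ∑ i ∈ range (n + 1), (n.choose i : ℝ) * (-(1 / ((r : ℝ) + 1))) ^ i *
      (if r ≤ n - i then 1 else 0) := by
  have hfun : (fun x : ℝ => Real.exp (-x / ((r : ℝ) + 1))) =
      fun x : ℝ => Real.exp (-(1 / ((r : ℝ) + 1)) * x) := by
    funext x
    congr 1
    ring
  rw [iteratedDeriv_fun_mul (by fun_prop) (by fun_prop)]
  apply Finset.sum_congr rfl
  intro i _
  rw [deriv_B, hfun, iteratedDeriv_exp_const_mul]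
  simp

/-- Every Taylor coefficient about `0` of `G_r(x) = e^{-x/(r+1)} (e^x - ∑_{k<r} x^k/k!)` is
nonnegative. -/
theorem result (r : ℕ) (hr : 1 ≤ r) (n : ℕ) :
    0 ≤ iteratedDeriv n (fun x : ℝ => Real.exp (-x / ((r : ℝ) + 1)) *
      (Real.exp x - ∑ k ∈ Finset.range r, x ^ k / (k.factorial : ℝ))) 0 / (n.factorial : ℝ) := by
  apply div_nonneg _ (by positivity)
  rw [deriv_G]
  by_cases hn : r ≤ n
  · obtain ⟨m, rfl⟩ : ∃ m, n = r + m := ⟨n - r, by omega⟩
    have hsum : ∑ i ∈ range (r + m + 1), ((r + m).choose i : ℝ) * (-(1 / ((r : ℝ) + 1))) ^ i *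
        (if r ≤ r + m - i then 1 else 0) = A r (1 / ((r : ℝ) + 1)) m := by
      unfold A
      symm
      apply Finset.sum_subset_zero_on_sdiff (Finset.range_mono (by omega))
      · intro x hx
        simp only [mem_sdiff, mem_range] at hx
        have : ¬ (r ≤ r + m - x) := by omega
        simp [this]
      · intro x hx
        simp only [mem_range] at hx
        have : r ≤ r + m - x := by omega
        simp [this]
    rw [hsum]
    exact A_nonneg r hr _ rfl m
  · apply Finset.sum_nonneg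
    intro i _
    have : ¬ (r ≤ n - i) := by omega
    simp [this]

end Pool.Agent.Results.MP_cd30d4_co.TaylorNonneg
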